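import Mathlib
import Pool.Agent.X134.GC.Ineq
import Pool.Agent.X134.GC.Theta

set_option autoImplicit false

/-!
# The Gaussian grid-cell Fisher information has no maximising lattice

For a lattice `L = ⊕ ℤ u_i` of covolume `1` in `ℝ ^ d` and `α > 0` let `θ_{L + y}(α) = ∑_{p ∈ L} exp (- π α |p + y| ^ 2)`
and `F(L) = ∫_{B_R} |∇_y √θ_{L + y}(α)| ^ 2 dy` (uniform measure on the ball of radius `R`, without its normalisation).

For every `d ≥ 2`, every `α > 0` and every `R > 0` the functional `F` is UNBOUNDED on the lattices of covolume `1`. So it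
has no maximiser at all; for `d = 2` the triangular lattice `A_2` and for `d = 3` the face centred cubic lattice `D_3`
are not maximisers, for any `R > 0`: the answers to Q1 and Q2 are negative.

Proof. For the lattice with the orthogonal basis `e_0 / N, N e_1, e_2, ..., e_(d-1)` we have
`√θ = √θ_{1/N}(y_0) √θ_N(y_1) ∏ √θ_1(y_i)` with one-dimensional theta functions; here `θ_{1/N} ≥ c N`, and `√θ_N` tends
to a Gaussian, so that it decreases by a fixed amount from `y_1` to `y_1 + R / 2`, if `|y_1| ≤ R / 8`. By the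
Cauchy-Schwarz inequality along the segments of direction `e_1`, `F ≥ c' N`.
-/

namespace Pool.Agent.Results.MP_e166ae_gt.TriangularNotMaximal

open MeasureTheory Pool.Agent.X134.GC

/-- `ℝ ^ d` with the Euclidean norm -/
abbrev Sp (d : ℕ) : Type := EuclideanSpace ℝ (Fin d)

/-- the translated theta function `θ_{L + y}(α)` of the lattice `L` with the basis `u` -/
noncomputable def theta {d : ℕ} (u : Fin d → Sp d) (α : ℝ) (y : Sp d) : ℝ :=
  ∑' k : Fin d → ℤ, Real.exp (-(Real.pi * α * ‖(∑ i, (k i : ℝ) • u i) + y‖ ^ 2))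

/-- `F(L)`, the integral over the ball `B_R` of the square of the norm of the gradient of `√θ_{L + y}(α)` -/
noncomputable def info {d : ℕ} (u : Fin d → Sp d) (α R : ℝ) : ℝ :=
  ∫ y in Metric.closedBall (0 : Sp d) R, ‖gradient (fun y : Sp d => Real.sqrt (theta u α y)) y‖ ^ 2

/-- `u` is a basis of a lattice of covolume `1` -/
def Unimodular {d : ℕ} (u : Fin d → Sp d) : Prop := |(Matrix.of fun i j => u i j).det| = 1

/-- no lattice of covolume `1` has a larger value of `F` than the lattice with the basis `u` -/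
def Maximiser {d : ℕ} (u : Fin d → Sp d) (α R : ℝ) : Prop :=
  ∀ v : Fin d → Sp d, Unimodular v → info v α R ≤ info u α R

/-- a basis of the triangular lattice `A_2` -/
noncomputable def triangular : Fin 2 → Sp 2 :=
  ![Real.sqrt (2 / Real.sqrt 3) • !₂[1, 0], Real.sqrt (2 / Real.sqrt 3) • !₂[1 / 2, Real.sqrt 3 / 2]]

/-- a basis of the face centred cubic lattice `D_3` -/
noncomputable def fcc : Fin 3 → Sp 3 :=
  ![(2 : ℝ) ^ (-(1 / 3) : ℝ) • !₂[1, 0, 1], (2 : ℝ) ^ (-(1 / 3) : ℝ) • !₂[0, 1, 1],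
    (2 : ℝ) ^ (-(1 / 3) : ℝ) • !₂[1, 1, 0]]

section Proof

variable {n : ℕ}

/-- the lengths of the orthogonal basis -/
noncomputable def len (n N : ℕ) : Fin (n + 2) → ℝ := Fin.cons (1 / N) (Fin.cons (N : ℝ) fun _ => 1)

/-- the orthogonal basis -/
noncomputable def base (n N : ℕ) : Fin (n + 2) → Sp (n + 2) := fun i => EuclideanSpace.single i (len n N i)

theorem len_ne {N : ℕ} (hN : 0 < N) (i : Fin (n + 2)) : len n N i ≠ 0 := by
  have hN0 : (0 : ℝ) < N := by exact_mod_cast hN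
  unfold len
  refine Fin.cases ?_ (fun i => Fin.cases ?_ (fun i => ?_) i) i
  · rw [Fin.cons_zero]
    positivity
  · rw [Fin.cons_succ, Fin.cons_zero]
    positivity
  · rw [Fin.cons_succ, Fin.cons_succ]
    exact one_ne_zero

theorem unimodular_base {N : ℕ} (hN : 0 < N) : Unimodular (base n N) := by
  have hN0 : (N : ℝ) ≠ 0 := by exact_mod_cast hN.ne'
  have e : (Matrix.of fun i j => base n N i j) = Matrix.diagonal (len n N) := by
    ext i j
    rw [Matrix.of_apply, Matrix.diagonal_apply]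
    unfold base
    rw [PiLp.single_apply]
    by_cases h : i = j
    · rw [if_pos h, if_pos h.symm]
    · rw [if_neg h, if_neg (Ne.symm h)]
  unfold Unimodular
  rw [e, Matrix.det_diagonal, Fin.prod_univ_succ, Fin.prod_univ_succ]
  unfold len
  simp [hN0]

theorem theta_base {N : ℕ} (hN : 0 < N) {α : ℝ} (hα : 0 < α) (y : Sp (n + 2)) :
    theta (base n N) α y = ∏ i, th (len n N i) α (y i) := by
  have h1 := hasSum_prod (n + 2)
    (fun i k => Real.exp (-(Real.pi * α * (k * len n N i + y i) ^ 2)))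
    (fun i => th (len n N i) α (y i)) (fun i => hasSum_th (len_ne hN i) hα (y i))
    (fun i k => (Real.exp_pos _).le)
  rw [← h1.tsum_eq]
  unfold theta
  refine tsum_congr fun k => ?_
  rw [← Real.exp_sum]
  congr 1
  rw [Finset.sum_neg_distrib, ← Finset.mul_sum]
  congr 2
  rw [EuclideanSpace.real_norm_sq_eq]
  refine Finset.sum_congr rfl fun i _ => ?_
  congr 1
  unfold base
  rw [PiLp.add_apply]
  congr 1
  rw [WithLp.ofLp_sum, Finset.sum_apply]
  rw [Finset.sum_eq_single i]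
  · simp
  · intro j _ hj
    simp [hj.symm]
  · intro h
    exact absurd (Finset.mem_univ i) h

theorem contDiff_root {N : ℕ} (hN : 0 < N) {α : ℝ} (hα : 0 < α) :
    ContDiff ℝ 1 (fun y : Sp (n + 2) => Real.sqrt (theta (base n N) α y)) := by
  have e : (fun y : Sp (n + 2) => theta (base n N) α y) =
      fun y : Sp (n + 2) => ∏ i, th (len n N i) α (y i) := by
    funext y
    exact theta_base hN hα y
  have h1 : ContDiff ℝ 1 (fun y : Sp (n + 2) => theta (base n N) α y) := by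
    rw [e]
    refine contDiff_prod fun i _ => ?_
    exact (contDiff_th (len_ne hN i) hα).comp (EuclideanSpace.proj (𝕜 := ℝ) i).contDiff
  refine h1.sqrt fun y => ?_
  rw [theta_base hN hα]
  exact (Finset.prod_pos fun i _ => th_pos (len_ne hN i) hα _).ne'

theorem unbounded (n : ℕ) {α R : ℝ} (hα : 0 < α) (hR : 0 < R) (C : ℝ) :
    ∃ u : Fin (n + 2) → Sp (n + 2), Unimodular u ∧ C < info u α R := by
  have hπα : 0 < Real.pi * α := by positivity
  obtain ⟨ρ, hρ⟩ : ∃ ρ, ρ = R / 8 := ⟨_, rfl⟩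
  obtain ⟨r, hr⟩ : ∃ r, r = R / 2 := ⟨_, rfl⟩
  have hρ0 : 0 < ρ := by rw [hρ]; positivity
  have hr0 : 0 < r := by rw [hr]; positivity
  obtain ⟨p, hp⟩ : ∃ p, p = Real.exp (-(Real.pi * α * ρ ^ 2)) := ⟨_, rfl⟩
  obtain ⟨q0, hq0⟩ : ∃ q0, q0 = Real.exp (-(Real.pi * α * (r - ρ) ^ 2)) := ⟨_, rfl⟩
  have hp0 : 0 < p := by rw [hp]; exact Real.exp_pos _
  have hq00 : 0 < q0 := by rw [hq0]; exact Real.exp_pos _
  have hqp : q0 < p := by
    rw [hp, hq0]
    apply Real.exp_lt_exp.2
    have h1 : ρ ^ 2 < (r - ρ) ^ 2 := by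
      rw [hρ, hr]
      nlinarith
    have h2 : Real.pi * α * ρ ^ 2 < Real.pi * α * (r - ρ) ^ 2 := mul_lt_mul_of_pos_left h1 hπα
    linarith
  obtain ⟨q, hq⟩ : ∃ q, q = (p + q0) / 2 := ⟨_, rfl⟩
  have hqp' : q < p := by rw [hq]; linarith
  have hq' : 0 < q := by rw [hq]; linarith
  obtain ⟨b, hb⟩ : ∃ b, b = Real.exp (-(Real.pi * α * (1 + ρ) ^ 2)) := ⟨_, rfl⟩
  have hb0 : 0 < b := by rw [hb]; exact Real.exp_pos _
  obtain ⟨c, hc⟩ : ∃ c, c = (Real.sqrt p - Real.sqrt q) ^ 2 := ⟨_, rfl⟩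
  have hsq : Real.sqrt q < Real.sqrt p := Real.sqrt_lt_sqrt hq'.le hqp'
  have hc0 : 0 < c := by
    rw [hc]
    have : 0 < Real.sqrt p - Real.sqrt q := by linarith
    positivity
  obtain ⟨V, hV⟩ : ∃ V, V = (volume (Metric.closedBall (0 : Sp (n + 2)) ρ)).toReal := ⟨_, rfl⟩
  have hV0 : 0 < V := by
    rw [hV]
    refine ENNReal.toReal_pos ?_ (isCompact_closedBall 0 ρ).measure_lt_top.ne
    exact (Metric.measure_closedBall_pos volume _ hρ0).ne'
  obtain ⟨N₀, hN₀⟩ := th_large (α := α) hα (σ := r - ρ) (τ := r + ρ) (η := (p - q0) / 2)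
    (by rw [hρ, hr]; linarith) (by linarith)
  obtain ⟨N₁, hN₁⟩ := exists_nat_gt (C * r ^ 2 / (b * p ^ n * c * V))
  obtain ⟨N, hN⟩ : ∃ N, N = max (max N₀ N₁) 1 := ⟨_, rfl⟩
  have hN1 : 0 < N := by rw [hN]; exact lt_of_lt_of_le one_pos (le_max_right _ _)
  have hNN₀ : N₀ ≤ N := by rw [hN]; exact le_trans (le_max_left _ _) (le_max_left _ _)
  have hNN₁ : N₁ ≤ N := by rw [hN]; exact le_trans (le_max_right _ _) (le_max_left _ _)
  have hNR : (0 : ℝ) < N := by exact_mod_cast hN1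
  refine ⟨base n N, unimodular_base hN1, ?_⟩
  obtain ⟨e, he⟩ : ∃ e : Sp (n + 2), e = EuclideanSpace.single 1 (1 : ℝ) := ⟨_, rfl⟩
  have hnorm : ‖e‖ = 1 := by rw [he]; simp
  have hkey : ∀ y ∈ Metric.closedBall (0 : Sp (n + 2)) ρ, (N : ℝ) * b * p ^ n * c ≤
      (Real.sqrt (theta (base n N) α (y + r • e)) - Real.sqrt (theta (base n N) α y)) ^ 2 := by
    intro y hy
    rw [mem_closedBall_zero_iff] at hy
    have hyi : ∀ i, |y i| ≤ ρ := fun i => (EuclideanSpace.norm_eq y ▸
      (by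
        have h1 := PiLp.norm_apply_le y i
        rw [Real.norm_eq_abs] at h1
        rwa [EuclideanSpace.norm_eq] at h1) : |y i| ≤ ‖y‖).trans hy
    rw [theta_base hN1 hα, theta_base hN1 hα, Fin.prod_univ_succ, Fin.prod_univ_succ,
      Fin.prod_univ_succ (f := fun i => th (len n N i) α (y i)), Fin.prod_univ_succ]
    have e0 : (y + r • e) 0 = y 0 := by
      rw [he]
      simp
    have e1 : (y + r • e) (Fin.succ 0) = y (Fin.succ 0) + r := by
      rw [he]
      simp
    have e2 : ∀ i : Fin n, (y + r • e) (Fin.succ (Fin.succ i)) = y (Fin.succ (Fin.succ i)) := by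
      intro i
      rw [he]
      have h1 : (Fin.succ (Fin.succ i)) ≠ (1 : Fin (n + 2)) := by
        intro h
        have := congrArg Fin.val h
        simp at this
      simp [h1]
    rw [e0, e1]
    simp only [e2]
    have l0 : len n N 0 = 1 / N := rfl
    have l1 : len n N (Fin.succ 0) = N := rfl
    have l2 : ∀ i : Fin n, len n N (Fin.succ (Fin.succ i)) = 1 := fun i => rfl
    rw [l0, l1]
    simp only [l2]
    obtain ⟨A, hA⟩ : ∃ A, A = th (1 / N) α (y 0) := ⟨_, rfl⟩
    obtain ⟨B, hB⟩ : ∃ B, B = ∏ i : Fin n, th 1 α (y (Fin.succ (Fin.succ i))) := ⟨_, rfl⟩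
    obtain ⟨S, hS⟩ : ∃ S, S = th N α (y (Fin.succ 0) + r) := ⟨_, rfl⟩
    obtain ⟨T, hT⟩ : ∃ T, T = th N α (y (Fin.succ 0)) := ⟨_, rfl⟩
    rw [← hA, ← hB, ← hS, ← hT]
    have hA1 : (N : ℝ) * b ≤ A := by
      rw [hA, hb]
      exact th_small hα hN1 (hyi 0)
    have hexp : ∀ t : ℝ, |t| ≤ ρ → p ≤ Real.exp (-(Real.pi * α * t ^ 2)) := by
      intro t ht
      rw [hp]
      apply Real.exp_le_exp.2
      have h1 : t ^ 2 ≤ ρ ^ 2 := by
        rw [← sq_abs t]
        exact pow_le_pow_left₀ (abs_nonneg _) ht 2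
      have h2 : Real.pi * α * t ^ 2 ≤ Real.pi * α * ρ ^ 2 := mul_le_mul_of_nonneg_left h1 hπα.le
      linarith
    have hB1 : p ^ n ≤ B := by
      rw [hB]
      calc p ^ n = ∏ _i : Fin n, p := by simp
        _ ≤ _ := Finset.prod_le_prod (fun _ _ => hp0.le) fun i _ =>
          (hexp _ (hyi _)).trans (th_ge one_ne_zero hα _)
    have hT1 : p ≤ T := by
      rw [hT]
      exact (hexp _ (hyi _)).trans (th_ge hNR.ne' hα _)
    have hS1 : S ≤ q := by
      rw [hS]
      have h1 := abs_le.1 (hyi (Fin.succ 0))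
      refine (hN₀ N hNN₀ _ (by linarith [h1.1]) (by linarith [h1.2])).trans (le_of_eq ?_)
      rw [← hq0, hq]
      ring
    have hS0 : 0 < S := by rw [hS]; exact th_pos hNR.ne' hα _
    have hA0 : 0 < A := lt_of_lt_of_le (by positivity) hA1
    have hB0 : 0 < B := lt_of_lt_of_le (by positivity) hB1
    have hT0 : 0 < T := lt_of_lt_of_le hp0 hT1
    have f1 : Real.sqrt (A * (S * B)) = Real.sqrt (A * B) * Real.sqrt S := by
      rw [← Real.sqrt_mul (by positivity)]
      congr 1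
      ring
    have f2 : Real.sqrt (A * (T * B)) = Real.sqrt (A * B) * Real.sqrt T := by
      rw [← Real.sqrt_mul (by positivity)]
      congr 1
      ring
    rw [f1, f2]
    have g1 : Real.sqrt p ≤ Real.sqrt T := Real.sqrt_le_sqrt hT1
    have g2 : Real.sqrt S ≤ Real.sqrt q := Real.sqrt_le_sqrt hS1
    have g3 : c ≤ (Real.sqrt T - Real.sqrt S) ^ 2 := by
      rw [hc]
      exact pow_le_pow_left₀ (by linarith) (by linarith) 2
    have g4 : (Real.sqrt (A * B) * Real.sqrt S - Real.sqrt (A * B) * Real.sqrt T) ^ 2 =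
        (A * B) * (Real.sqrt T - Real.sqrt S) ^ 2 := by
      have h1 : Real.sqrt (A * B) ^ 2 = A * B := Real.sq_sqrt (by positivity)
      calc (Real.sqrt (A * B) * Real.sqrt S - Real.sqrt (A * B) * Real.sqrt T) ^ 2
          = Real.sqrt (A * B) ^ 2 * (Real.sqrt T - Real.sqrt S) ^ 2 := by ring
        _ = _ := by rw [h1]
    rw [g4]
    calc (N : ℝ) * b * p ^ n * c ≤ (A * B) * c := by
          refine mul_le_mul_of_nonneg_right ?_ hc0.le
          exact mul_le_mul hA1 hB1 (by positivity) hA0.le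
      _ ≤ _ := mul_le_mul_of_nonneg_left g3 (by positivity)
  have h1 := dirichlet (contDiff_root hN1 hα) hr0 (R := R) (by rw [hρ, hr]; linarith) hnorm hkey
  have h2 : ∫ y in Metric.closedBall (0 : Sp (n + 2)) R,
      ‖fderiv ℝ (fun y : Sp (n + 2) => Real.sqrt (theta (base n N) α y)) y‖ ^ 2 =
      info (base n N) α R := by
    unfold info
    refine setIntegral_congr_fun measurableSet_closedBall fun y _ => ?_
    simp only [gradient, LinearIsometryEquiv.norm_map]
  rw [h2, ← hV] at h1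
  have h3 : C * r ^ 2 < (N : ℝ) * b * p ^ n * c * V := by
    have h4 : C * r ^ 2 / (b * p ^ n * c * V) < N := hN₁.trans_le (by exact_mod_cast hNN₁)
    rw [div_lt_iff₀ (by positivity)] at h4
    calc C * r ^ 2 < N * (b * p ^ n * c * V) := h4
      _ = _ := by ring
  have h5 : C * r ^ 2 < info (base n N) α R * r ^ 2 := by
    rw [mul_comm (info _ _ _)]
    exact h3.trans_le h1
  exact lt_of_mul_lt_mul_right h5 (by positivity)

theorem unimodular_triangular : Unimodular triangular := by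
  have h3 : 0 < Real.sqrt 3 := Real.sqrt_pos.2 (by norm_num)
  obtain ⟨t, ht⟩ : ∃ t, t = Real.sqrt (2 / Real.sqrt 3) := ⟨_, rfl⟩
  have h1 : t * t = 2 / Real.sqrt 3 := by
    rw [ht]
    exact Real.mul_self_sqrt (by positivity)
  have h2 : Real.sqrt 3 / 2 * (2 / Real.sqrt 3) = 1 := by field_simp
  have e : (Matrix.of fun i j => triangular i j).det = 1 := by
    rw [Matrix.det_fin_two]
    simp only [triangular, ← ht, Matrix.of_apply]
    simp
    linear_combination Real.sqrt 3 / 2 * h1 + h2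
  unfold Unimodular
  rw [e, abs_one]

theorem unimodular_fcc : Unimodular fcc := by
  obtain ⟨t, ht⟩ : ∃ t, t = (2 : ℝ) ^ (-(1 / 3) : ℝ) := ⟨_, rfl⟩
  have ht3 : t ^ 3 = 1 / 2 := by
    rw [ht, ← Real.rpow_natCast, ← Real.rpow_mul (by norm_num)]
    norm_num
  have e : (Matrix.of fun i j => fcc i j).det = -1 := by
    rw [Matrix.det_fin_three]
    simp only [fcc, ← ht, Matrix.of_apply]
    simp
    linarith [ht3, show t * t * t = t ^ 3 by ring]
  unfold Unimodular
  rw [e, abs_neg, abs_one]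

end Proof

/-- **Theorem.** See the header. -/
theorem result :
    (∀ d : ℕ, 2 ≤ d → ∀ α R : ℝ, 0 < α → 0 < R → ∀ C : ℝ,
      ∃ u : Fin d → Sp d, Unimodular u ∧ C < info u α R) ∧
    (∀ d : ℕ, 2 ≤ d → ∀ α R : ℝ, 0 < α → 0 < R → ∀ u : Fin d → Sp d, ¬ Maximiser u α R) ∧
    (Unimodular triangular ∧ ∀ R : ℝ, 0 < R → ¬ Maximiser triangular (10 / Real.pi) R) ∧
    (Unimodular fcc ∧ ∀ R : ℝ, 0 < R → ¬ Maximiser fcc (10 / Real.pi) R) := by
  have main : ∀ d : ℕ, 2 ≤ d → ∀ α R : ℝ, 0 < α → 0 < R → ∀ C : ℝ,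
      ∃ u : Fin d → Sp d, Unimodular u ∧ C < info u α R := by
    intro d hd α R hα hR C
    obtain ⟨n, rfl⟩ : ∃ n, d = n + 2 := ⟨d - 2, by omega⟩
    exact unbounded n hα hR C
  have main2 : ∀ d : ℕ, 2 ≤ d → ∀ α R : ℝ, 0 < α → 0 < R → ∀ u : Fin d → Sp d,
      ¬ Maximiser u α R := by
    intro d hd α R hα hR u hu
    obtain ⟨v, hv1, hv2⟩ := main d hd α R hα hR (info u α R)
    exact absurd (hu v hv1) (not_le.2 hv2)
  have h10 : 0 < 10 / Real.pi := by positivity
  exact ⟨main, main2, ⟨unimodular_triangular, fun R hR => main2 2 le_rfl _ R h10 hR _⟩,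
    ⟨unimodular_fcc, fun R hR => main2 3 (by norm_num) _ R h10 hR _⟩⟩

end Pool.Agent.Results.MP_e166ae_gt.TriangularNotMaximal
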